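import Pool.Agent.W2helper58.PW.Stm

/-! Piece UF of project PW (helper58). -/

set_option autoImplicit false

namespace Pool.Agent.W2helper19.PW

open Pool.Agent.NPC Pool.Agent.H620R2.Gauge Pool.Agent.W2helper57.LC Pool.Agent.W2helper58.IR
  Pool.Agent.W2helper58.PW

theorem poly_un {α : Type} [TEnc α] {n : α → ℕ} (hn : UPoly n) : Poly (fun a => un (n a)) :=
  (NPC.Poly.map hn (F := fun _ _ => true) (NPC.Poly.const true)).congr fun a => by simp [un]

/-- the answers to a range of questions -/
theorem ufp_range (n : List Bool → ℕ) (pos : List Bool → ℕ → List Bool) (hn : UPoly n)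
    (hpos : Poly (fun p : List Bool × ℕ => pos p.1 (min p.2 (n p.1)))) :
    UFP (fun A x => (List.range (n x)).map fun i => A (pos x i)) := by
  have h := s_TT (fun x => (List.range (n x)).map fun i => pos x (min i (n x))) (fun p => p.2)
    (NPC.Poly.map (F := fun (x : List Bool) (i : ℕ) => pos x (min i (n x))) hn.range hpos)
    (Poly.snd Poly.id)
  refine (congrArg UFP (funext fun A => funext fun x => ?_)).mp h
  rw [List.map_map]
  apply List.map_congr_left
  intro i hi
  rw [List.mem_range] at hi
  simp only [Function.comp_apply]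
  rw [min_eq_left hi.le]

theorem upoly_min {n : List Bool → ℕ} (hn : UPoly n) :
    UPoly (fun p : List Bool × ℕ => min p.2 (n p.1)) :=
  UPoly.of_le (Poly.min (Poly.snd Poly.id) (hn.comp (Poly.fst Poly.id)).toPoly)
    (hn.comp (Poly.fst Poly.id)) fun _ => min_le_right _ _

/-- reading `λ n` -/
theorem ufp_lam {g : List Bool → List Bool} (hg : Poly g) :
    UFP (fun A x => un (lamA A (g x).length)) := by
  have hn : UPoly (fun x => (g x).length) := UPoly.length hg
  have hpos : Poly (fun p : List Bool × ℕ => lpos (g p.1).length (min p.2 (g p.1).length)) :=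
    Poly.cons (NPC.Poly.const true) (Poly.cons (NPC.Poly.const true)
      (Poly.append (poly_un (hn.comp (Poly.fst Poly.id)))
        (Poly.cons (NPC.Poly.const false) (poly_un (upoly_min hn)))))
  have h1 := ufp_range (fun x => (g x).length) (fun x i => lpos (g x).length i) hn hpos
  have h2 : Poly (fun p : List Bool × List Bool × List Bool =>
      un ((p.2.1.filter fun b => b).length)) :=
    poly_un (UPoly.length (Poly.filter (p := fun _ b => b) (Poly.fst (Poly.snd Poly.id))
      (Poly.snd Poly.id)))
  have h := s_SEQ _ (fun _ x => x) (fun p => p.1) (fun p => un ((p.2.1.filter fun b => b).length))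
    h1 (UFP.of_poly Poly.id) (Poly.fst Poly.id) h2
  refine (congrArg UFP (funext fun A => funext fun x => ?_)).mp h
  simp only [lamA, List.filter_map, List.length_map]
  rfl

/-- a computation which uses `λ n` -/
theorem ufp_seq {g : List Bool → List Bool} (hg : Poly g) {G : Oracle → List Bool → List Bool}
    (hG : UFP G) : UFP (fun A x => G A (pairBits (un (lamA A (g x).length)) x)) :=
  s_SEQ _ G (fun p => pairBits p.2 p.1) (fun p => p.2.2) (ufp_lam hg) hG
    (H622R2.poly_pairBits (Poly.snd Poly.id) (Poly.fst Poly.id)) (Poly.snd (Poly.snd Poly.id))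

theorem poly_u1 {α : Type} [TEnc α] {f : α → List Bool} (hf : Poly f) :
    Poly (fun a => (unpair (f a)).1) := Poly.fst (poly_unpair.comp hf)

theorem poly_u2 {α : Type} [TEnc α] {f : α → List Bool} (hf : Poly f) :
    Poly (fun a => (unpair (f a)).2) := Poly.snd (poly_unpair.comp hf)

theorem poly_take' {α : Type} [TEnc α] {l : α → List Bool} {n : α → ℕ} (hl : Poly l)
    (hn : UPoly n) : Poly (fun a => (l a).take (n a)) :=
  Pool.Agent.H620R2.Gauge.R1.poly_take hl hn

theorem upoly_three {α : Type} [TEnc α] {n : α → ℕ} (hn : UPoly n) :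
    UPoly (fun a => 3 * n a) := (UPoly.const 3).mul hn

theorem uf_fgp : UFP fgp := by
  have hz1 : Poly (fun z : List Bool => (unpair z).1) := poly_u1 Poly.id
  have hl : UPoly (fun z : List Bool => 3 * (unpair z).1.length) := upoly_three (UPoly.length hz1)
  have hpos : Poly (fun p : List Bool × ℕ => ppos (unpair (unpair p.1).2).2.length
      ((unpair (unpair p.1).2).1.take (unpair p.1).1.length)
      (min p.2 (3 * (unpair p.1).1.length))) :=
    Poly.cons (NPC.Poly.const false) (Poly.cons (NPC.Poly.const true)
      (Poly.append (poly_un (UPoly.length (poly_u2 (poly_u2 (Poly.fst Poly.id)))))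
        (Poly.cons (NPC.Poly.const false)
          (Poly.append (poly_take' (poly_u1 (poly_u2 (Poly.fst Poly.id)))
            (UPoly.length (poly_u1 (Poly.fst Poly.id)))) (poly_un (upoly_min hl))))))
  have h1 := ufp_range (fun z => 3 * (unpair z).1.length)
    (fun z i => ppos (unpair (unpair z).2).2.length
      ((unpair (unpair z).2).1.take (unpair z).1.length) i) hl hpos
  have h := ufp_seq (g := fun x => (unpair x).2) (poly_u2 Poly.id) h1
  refine (congrArg UFP (funext fun A => funext fun x => ?_)).mp h
  simp only [unpair_pairBits, fgp, pkey, un, List.length_replicate]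

theorem uf_fgs : UFP fgs := by
  have h1 : UFP (fun _ z => (unpair (unpair z).2).1.take (unpair z).1.length) :=
    UFP.of_poly (poly_take' (poly_u1 (poly_u2 Poly.id)) (UPoly.length (poly_u1 Poly.id)))
  have h := ufp_seq (g := fun x => (unpair x).2) (poly_u2 Poly.id) h1
  refine (congrArg UFP (funext fun A => funext fun x => ?_)).mp h
  simp only [unpair_pairBits, fgs, un, List.length_replicate]

theorem poly_headD {α : Type} [TEnc α] {l : α → List Bool} (hl : Poly l) :
    Poly (fun a => (l a).headD false) := by
  refine (Poly.listCases (g := fun _ => false) (h := fun _ b _ => b) hl (NPC.Poly.const false)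
    (Poly.fst (Poly.snd Poly.id))).congr fun a => ?_
  cases l a <;> rfl

theorem uf_fenc : UFP fenc := by
  have hz1 : Poly (fun z : List Bool => (unpair z).1) := poly_u1 Poly.id
  have hl : UPoly (fun z : List Bool => 3 * (unpair z).1.length) := upoly_three (UPoly.length hz1)
  have hy : Poly (fun p : List Bool × ℕ => (unpair (unpair (unpair p.1).2).2).2) :=
    poly_u2 (poly_u2 (poly_u2 (Poly.fst Poly.id)))
  have hpos : Poly (fun p : List Bool × ℕ => epos (unpair (unpair (unpair p.1).2).2).1.length
      (unpair (unpair (unpair p.1).2).2).2.tail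
      ((unpair (unpair (unpair p.1).2).2).2.headD false)
      ((unpair (unpair p.1).2).1.take (unpair p.1).1.length)
      (min p.2 (3 * (unpair p.1).1.length))) :=
    Poly.cons (NPC.Poly.const false) (Poly.cons (NPC.Poly.const false)
      (Poly.append (poly_un (UPoly.length (poly_u1 (poly_u2 (poly_u2 (Poly.fst Poly.id))))))
        (Poly.cons (NPC.Poly.const false)
          (Poly.append (Poly.tail hy) (Poly.cons (poly_headD hy)
            (Poly.append (poly_take' (poly_u1 (poly_u2 (Poly.fst Poly.id)))
              (UPoly.length (poly_u1 (Poly.fst Poly.id)))) (poly_un (upoly_min hl))))))))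
  have h1 := ufp_range (fun z => 3 * (unpair z).1.length)
    (fun z i => epos (unpair (unpair (unpair z).2).2).1.length
      (unpair (unpair (unpair z).2).2).2.tail
      ((unpair (unpair (unpair z).2).2).2.headD false)
      ((unpair (unpair z).2).1.take (unpair z).1.length) i) hl hpos
  have h := ufp_seq (g := fun x => (unpair (unpair x).2).1) (poly_u1 (poly_u2 Poly.id)) h1
  refine (congrArg UFP (funext fun A => funext fun x => ?_)).mp h
  simp only [unpair_pairBits, fenc, ctxt, un, List.length_replicate]

theorem uf_fdec : UFP fdec := by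
  have hq : Poly (fun x : List Bool => dpos (unpair (unpair x).2).1.length
      (unpair (unpair (unpair x).2).2).1 (unpair (unpair (unpair x).2).2).2) :=
    Poly.cons (NPC.Poly.const true) (Poly.cons (NPC.Poly.const false)
      (Poly.append (poly_un (UPoly.length (poly_u1 (poly_u2 Poly.id))))
        (Poly.cons (NPC.Poly.const false)
          (Poly.append (poly_u1 (poly_u2 (poly_u2 Poly.id)))
            (poly_u2 (poly_u2 (poly_u2 Poly.id)))))))
  exact UFP.ask hq (H := fun p => [p.2]) (Poly.cons (Poly.snd Poly.id) (NPC.Poly.const []))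

theorem p_uf : P_uf := ⟨uf_fgp, uf_fgs, uf_fenc, uf_fdec⟩

end Pool.Agent.W2helper19.PW
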